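import Pool.Agent.H29.UDP.TPro
import Pool.Agent.H19.LD.PTB

/-!
# Row PT2 of the board `udp_modules`: the pointwise bound by the pairings
-/

set_option autoImplicit false

open MeasureTheory SchwartzMap Filter Topology Metric
open scoped ENNReal ContDiff

namespace Pool.Agent.H93.UDP

open Pool.Agent.H29.UDP
open Pool.Agent.H43.DPC (V S SD moment Diag)
open Pool.Agent.H80.LD (Dom pair)
open Pool.Agent.H19.LD (exists_bump isClosed_diag avg_close)

variable {d : ℕ}

/-- small neighbourhoods -/
theorem radius_ev {n : ℕ} (s : (Fin n → V d) → ℝ)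
    (hs : ContinuousOn s (Diag d n)ᶜ) (x : Fin n → V d) (hx : x ∉ Diag d n) {ε : ℝ}
    (hε : 0 < ε) :
    ∀ᶠ r in 𝓝[>] (0 : ℝ), ∀ y : Fin n → V d, (∀ i, ‖y i - x i‖ ≤ r) →
      y ∉ Diag d n ∧ |s y - s x| ≤ ε := by
  have hopen : IsOpen (Diag d n)ᶜ := (isClosed_diag d n).isOpen_compl
  have hc : ContinuousAt s x := hs.continuousAt (hopen.mem_nhds hx)
  have h2 : ∀ᶠ y in 𝓝 x, y ∉ Diag d n ∧ |s y - s x| ≤ ε := by
    refine (hopen.eventually_mem hx).and ?_
    have := (Metric.continuousAt_iff'.1 hc) ε hε
    filter_upwards [this] with y hy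
    rw [Real.dist_eq] at hy
    exact hy.le
  obtain ⟨ρ, hρ, h3⟩ := Metric.eventually_nhds_iff.1 h2
  filter_upwards [Ioo_mem_nhdsGT hρ] with r hr y hy
  apply h3
  rw [dist_pi_lt_iff hρ]
  intro i
  rw [dist_eq_norm]
  exact lt_of_le_of_lt (hy i) hr.2

theorem pf_PT2 (hPRB : Pool.Agent.H80.LD.T_PRB) : T_PT2 := by
  intro d μ _ hD F _ _ _ hF2 n s hs x hx
  have hcont : ContinuousOn s (Diag d n)ᶜ := hs.smooth.continuousOn
  have hcont2 : ContinuousOn (fun y : Fin 2 → V d => F (y 0 - y 1)) (Diag d 2)ᶜ :=
    hF2.smooth.continuousOn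
  have hpair : ∀ i j, i ≠ j → ![x i, x j] ∉ Diag d 2 := by
    rintro i j hij ⟨a, b, hab, h⟩
    have h1 : x i = x j := by
      fin_cases a <;> fin_cases b <;> simp at hab h <;> first | exact h | exact h.symm
    exact hx ⟨i, j, hij, h1⟩
  have key : ∀ ε : ℝ, 0 < ε →
      s x ≤ pair (fun i j => F (x i - x j) + ε) Finset.univ + ε := by
    intro ε hε
    have e1 := radius_ev s hcont x hx hε
    have e2 : ∀ᶠ r in 𝓝[>] (0 : ℝ), ∀ i j, i ≠ j → ∀ y : Fin 2 → V d,
        (∀ l, ‖y l - ![x i, x j] l‖ ≤ r) →
        y ∉ Diag d 2 ∧ |F (y 0 - y 1) - F (x i - x j)| ≤ ε := by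
      rw [eventually_all]
      intro i
      rw [eventually_all]
      intro j
      by_cases hij : i = j
      · exact Eventually.of_forall (fun r h => absurd hij h)
      · filter_upwards [radius_ev (fun y : Fin 2 → V d => F (y 0 - y 1)) hcont2 ![x i, x j]
          (hpair i j hij) hε] with r hr _ y hy
        exact hr y hy
    obtain ⟨r, ⟨hr1, hr2⟩, hr⟩ := ((e1.and e2).and self_mem_nhdsWithin).exists
    have hr0 : 0 < r := hr
    choose f hf0 hf1 hfs hfc hft using fun i => exists_bump (x i) hr0
    have hdisj : ∀ i j, i ≠ j → Disjoint (tsupport (f i)) (tsupport (f j)) := by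
      intro i j hij
      rw [Set.disjoint_left]
      intro z hz1 hz2
      have h1 := hft i hz1
      have h2 := hft j hz2
      rw [mem_closedBall, dist_eq_norm] at h1 h2
      refine (hr2 i j hij ![z, z] ?_).1 ⟨0, 1, by simp, rfl⟩
      intro l
      fin_cases l
      · exact h1
      · exact h2
    have hmom : moment μ f = ∫ y in (Diag d n)ᶜ, s y * ∏ i, f i (y i) := hs.eq f hfc hdisj
    have hclose := avg_close s hcont x f hf0 hf1 hfs hr1
    rw [← hmom, abs_le] at hclose
    have hup : moment μ f ≤ pair (fun i j => F (x i - x j) + ε) Finset.univ := by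
      refine (hD.gau n f hf0).trans ?_
      refine (hPRB.mono n _ _ Finset.univ ?_ ?_).2
      · intro i _ j _ _
        apply hD.pos
        intro l y
        fin_cases l
        · exact hf0 i y
        · exact hf0 j y
      · intro i _ j _ hij
        have g0 : ∀ (l : Fin 2) (y : V d), 0 ≤ (![f i, f j] : Fin 2 → S d) l y := by
          intro l y
          fin_cases l
          · exact hf0 i y
          · exact hf0 j y
        have g1 : ∀ l : Fin 2, ∫ y, (![f i, f j] : Fin 2 → S d) l y = 1 := by
          intro l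
          fin_cases l
          · exact hf1 i
          · exact hf1 j
        have g2 : ∀ (l : Fin 2) (y : V d), (![f i, f j] : Fin 2 → S d) l y ≠ 0 →
            ‖y - (![x i, x j] : Fin 2 → V d) l‖ ≤ r := by
          intro l y
          fin_cases l
          · exact hfs i y
          · exact hfs j y
        have g3 : ∀ l : Fin 2, HasCompactSupport ((![f i, f j] : Fin 2 → S d) l) := by
          intro l
          fin_cases l
          · exact hfc i
          · exact hfc j
        have g4 : ∀ l l' : Fin 2, l ≠ l' → Disjoint (tsupport ((![f i, f j] : Fin 2 → S d) l))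
            (tsupport ((![f i, f j] : Fin 2 → S d) l')) := by
          intro l l' hl
          fin_cases l <;> fin_cases l'
          · exact absurd rfl hl
          · exact hdisj i j hij
          · exact (hdisj i j hij).symm
          · exact absurd rfl hl
        have hm2 : moment μ ![f i, f j] = ∫ y in (Diag d 2)ᶜ, F (y 0 - y 1) *
            ∏ l, (![f i, f j] : Fin 2 → S d) l (y l) := hF2.eq _ g3 g4
        have hc2 := avg_close (fun y : Fin 2 → V d => F (y 0 - y 1)) hcont2 ![x i, x j]
          ![f i, f j] g0 g1 g2 (hr2 i j hij)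
        rw [← hm2, abs_le] at hc2
        have h5 := hc2.2
        simp only [Matrix.cons_val_zero, Matrix.cons_val_one] at h5
        linarith
    linarith [hclose.1]
  have h1 : Tendsto (fun ε : ℝ => pair (fun i j : Fin n => F (x i - x j) + ε) Finset.univ + ε)
      (𝓝[>] 0) (𝓝 (pair (fun i j : Fin n => F (x i - x j)) Finset.univ)) := by
    have h2 : Continuous (fun ε : ℝ => pair (fun i j : Fin n =>
        F (x i - x j) + ε) Finset.univ + ε) := by
      apply Continuous.add _ continuous_id
      apply (hPRB.cont n Finset.univ).comp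
      exact continuous_pi (fun i => continuous_pi (fun j =>
        continuous_const.add continuous_id))
    have h3 := (h2.tendsto 0).mono_left (nhdsWithin_le_nhds (s := Set.Ioi (0 : ℝ)))
    simpa only [add_zero] using h3
  refine ge_of_tendsto h1 ?_
  filter_upwards [self_mem_nhdsWithin] with ε hε
  exact key ε hε

end Pool.Agent.H93.UDP
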