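import Pool.Agent.H29.UDP.TLat

/-!
# Row QPS of the board `udp_modules`: the kernel `exp (∑ K ψ ψ')` is positive semidefinite
-/

set_option autoImplicit false

open MeasureTheory Filter Topology
open scoped ENNReal

namespace Pool.Agent.H93.UDP

open Pool.Agent.H29.UDP

variable {P : Type} [Fintype P]

/-- completing the square -/
theorem one_dim' (g B s : ℝ) (hg : 0 < g) :
    B * s ^ 2 - g * s ^ 4 ≤ (B + 1) ^ 2 / (4 * g) - s ^ 2 := by
  have h1 : 0 ≤ g * (s ^ 2 - (B + 1) / (2 * g)) ^ 2 := by positivity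
  have h2 : g * (s ^ 2 - (B + 1) / (2 * g)) ^ 2 =
      g * s ^ 4 - (B + 1) * s ^ 2 + (B + 1) ^ 2 / (4 * g) := by
    field_simp
    ring
  rw [h2] at h1
  linarith

/-- `exp (M |ψ|² - c ∑ ψ⁴)` is integrable -/
theorem integrable_quart (M c : ℝ) (hc : 0 < c) :
    Integrable (fun ψ : P → ℝ => Real.exp (M * ∑ x, ψ x ^ 2 - c * ∑ x, ψ x ^ 4)) := by
  have h1 : Integrable (fun φ : P → ℝ => ∏ x, Real.exp ((M + 1) ^ 2 / (4 * c) - φ x ^ 2)) := by
    apply Integrable.fintype_prod
      (f := fun (_ : P) (s : ℝ) => Real.exp ((M + 1) ^ 2 / (4 * c) - s ^ 2))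
    intro x
    have h2 := (integrable_exp_neg_mul_sq (b := 1) one_pos).const_mul
      (Real.exp ((M + 1) ^ 2 / (4 * c)))
    refine h2.congr (Eventually.of_forall fun s => ?_)
    show Real.exp ((M + 1) ^ 2 / (4 * c)) * Real.exp (-1 * s ^ 2) =
      Real.exp ((M + 1) ^ 2 / (4 * c) - s ^ 2)
    rw [← Real.exp_add]
    congr 1
    ring
  refine h1.mono' (Continuous.aestronglyMeasurable (by fun_prop))
    (Eventually.of_forall fun φ => ?_)
  rw [Real.norm_eq_abs, abs_of_pos (Real.exp_pos _), ← Real.exp_sum]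
  refine Real.exp_le_exp.2 ?_
  rw [Finset.mul_sum, Finset.mul_sum, ← Finset.sum_sub_distrib]
  exact Finset.sum_le_sum fun x _ => one_dim' c M (φ x) hc

/-- the quadratic form -/
def QS (K : P → P → ℝ) (z : (P → ℝ) × (P → ℝ)) : ℝ := ∑ x, ∑ y, K x y * z.1 x * z.2 y

theorem QS_bound (K : P → P → ℝ) (z : (P → ℝ) × (P → ℝ)) :
    |QS K z| ≤ (∑ x, ∑ y, |K x y|) * ((∑ x, z.1 x ^ 2) + ∑ x, z.2 x ^ 2) := by
  unfold QS
  rw [Finset.sum_mul]
  refine (Finset.abs_sum_le_sum_abs _ _).trans (Finset.sum_le_sum fun x _ => ?_)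
  rw [Finset.sum_mul]
  refine (Finset.abs_sum_le_sum_abs _ _).trans (Finset.sum_le_sum fun y _ => ?_)
  have h1 : z.1 x ^ 2 ≤ ∑ x, z.1 x ^ 2 :=
    Finset.single_le_sum (f := fun x => z.1 x ^ 2) (fun _ _ => sq_nonneg _) (Finset.mem_univ x)
  have h2 : z.2 y ^ 2 ≤ ∑ x, z.2 x ^ 2 :=
    Finset.single_le_sum (f := fun x => z.2 x ^ 2) (fun _ _ => sq_nonneg _) (Finset.mem_univ y)
  have h3 : |z.1 x * z.2 y| ≤ (∑ x, z.1 x ^ 2) + ∑ x, z.2 x ^ 2 := by
    rw [abs_le]
    constructor <;>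
      nlinarith [sq_nonneg (z.1 x - z.2 y), sq_nonneg (z.1 x + z.2 y)]
  rw [mul_assoc, abs_mul]
  exact mul_le_mul_of_nonneg_left h3 (abs_nonneg _)

theorem QS_cont (K : P → P → ℝ) : Continuous (QS K) := by
  unfold QS
  fun_prop

/-- domination -/
theorem dom_int (K : P → P → ℝ) (A B : (P → ℝ) → ℝ) (C c : ℝ) (hc : 0 < c)
    (hA : Measurable A) (hB : Measurable B)
    (hAb : ∀ ψ, |A ψ| ≤ C * Real.exp (-(c * ∑ x, ψ x ^ 4)))
    (hBb : ∀ ψ, |B ψ| ≤ C * Real.exp (-(c * ∑ x, ψ x ^ 4)))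
    (f : (P → ℝ) × (P → ℝ) → ℝ) (hf : Measurable f) (D : ℝ)
    (hfb : ∀ z, |f z| ≤ D * Real.exp |QS K z|) :
    Integrable (fun z : (P → ℝ) × (P → ℝ) => A z.1 * B z.2 * f z) := by
  set M : ℝ := ∑ x, ∑ y, |K x y| with hM
  have h1 := integrable_quart (P := P) M c hc
  have h2 := (h1.mul_prod h1).const_mul (C * C * D)
  refine h2.mono' ?_ (Eventually.of_forall fun z => ?_)
  · exact (((hA.comp measurable_fst).mul (hB.comp measurable_snd)).mul hf).aestronglyMeasurable
  · have hC : 0 ≤ C := by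
      have h3 := (abs_nonneg _).trans (hAb 0)
      exact nonneg_of_mul_nonneg_left h3 (Real.exp_pos _)
    have hD : 0 ≤ D := by
      have h3 := (abs_nonneg _).trans (hfb 0)
      exact nonneg_of_mul_nonneg_left h3 (Real.exp_pos _)
    rw [Real.norm_eq_abs, abs_mul, abs_mul]
    calc |A z.1| * |B z.2| * |f z| ≤ (C * Real.exp (-(c * ∑ x, z.1 x ^ 4))) *
          (C * Real.exp (-(c * ∑ x, z.2 x ^ 4))) * (D * Real.exp |QS K z|) := by
          refine mul_le_mul (mul_le_mul (hAb _) (hBb _) (abs_nonneg _) (by positivity))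
            (hfb z) (abs_nonneg _) (by positivity)
      _ ≤ (C * Real.exp (-(c * ∑ x, z.1 x ^ 4))) *
          (C * Real.exp (-(c * ∑ x, z.2 x ^ 4))) *
          (D * Real.exp (M * ((∑ x, z.1 x ^ 2) + ∑ x, z.2 x ^ 2))) := by
          gcongr
          exact QS_bound K z
      _ = C * C * D * (Real.exp (M * ∑ x, z.1 x ^ 2 - c * ∑ x, z.1 x ^ 4) *
          Real.exp (M * ∑ x, z.2 x ^ 2 - c * ∑ x, z.2 x ^ 4)) := by
          rw [mul_add, Real.exp_add, sub_eq_add_neg, sub_eq_add_neg, Real.exp_add, Real.exp_add]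
          ring

/-- positivity -/
theorem pos_int (K : P → P → ℝ) (hK : ∀ x y, K x y = K y x)
    (hp : ∀ c : P → ℝ, 0 ≤ ∑ x, ∑ y, c x * c y * K x y) (A : (P → ℝ) → ℝ) (C c : ℝ)
    (hc : 0 < c) (hA : Measurable A)
    (hAb : ∀ ψ, |A ψ| ≤ C * Real.exp (-(c * ∑ x, ψ x ^ 4))) :
    0 ≤ ∫ z : (P → ℝ) × (P → ℝ), A z.1 * A z.2 * Real.exp (QS K z) := by
  classical
  let M : Matrix P P ℝ := fun x y => K x y
  have hMps : M.PosSemidef := by
    rw [Matrix.posSemidef_iff_dotProduct_mulVec]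
    constructor
    · ext x y
      show star (K y x) = K x y
      rw [star_trivial, hK]
    · intro v
      refine (hp v).trans (le_of_eq ?_)
      simp only [dotProduct, Matrix.mulVec, Pi.star_apply, star_trivial, Finset.mul_sum]
      refine Finset.sum_congr rfl fun x _ => Finset.sum_congr rfl fun y _ => ?_
      show v x * v y * K x y = v x * (K x y * v y)
      ring
  obtain ⟨k, B, hB⟩ := Matrix.posSemidef_iff_eq_sum_vecMulVec.1 hMps
  have hM : ∀ x y, K x y = ∑ z, B z x * B z y := by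
    intro x y
    have h1 : M x y = (∑ z, Matrix.vecMulVec (B z) (star (B z))) x y := by rw [← hB]
    rw [Matrix.sum_apply] at h1
    exact h1
  let u : Fin k → (P → ℝ) → ℝ := fun z φ => ∑ y, B z y * φ y
  have hu : ∀ z, Continuous (u z) := fun z => by
    show Continuous fun φ : P → ℝ => ∑ y, B z y * φ y
    fun_prop
  obtain ⟨D, hD0, huD⟩ : ∃ D : ℝ, 0 ≤ D ∧ ∀ z (φ : P → ℝ),
      |u z φ| ≤ D * Real.exp (∑ x, φ x ^ 2) := by
    refine ⟨∑ z, ∑ y, |B z y|, Finset.sum_nonneg fun _ _ => Finset.sum_nonneg fun _ _ =>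
      abs_nonneg _, fun z φ => ?_⟩
    have h1 : ∀ y, |φ y| ≤ Real.exp (∑ x, φ x ^ 2) := by
      intro y
      have h1 : φ y ^ 2 ≤ ∑ x, φ x ^ 2 :=
        Finset.single_le_sum (f := fun x => φ x ^ 2) (fun _ _ => sq_nonneg _) (Finset.mem_univ y)
      have h2 := Real.add_one_le_exp (∑ x, φ x ^ 2)
      have h3 : |φ y| ≤ 1 + φ y ^ 2 := by
        rw [← sq_abs (φ y)]; nlinarith [sq_nonneg (|φ y| - 1), abs_nonneg (φ y)]
      linarith
    calc |u z φ| ≤ ∑ y, |B z y * φ y| := Finset.abs_sum_le_sum_abs _ _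
      _ ≤ ∑ y, |B z y| * Real.exp (∑ x, φ x ^ 2) := by
          refine Finset.sum_le_sum fun y _ => ?_
          rw [abs_mul]
          exact mul_le_mul_of_nonneg_left (h1 y) (abs_nonneg _)
      _ = (∑ y, |B z y|) * Real.exp (∑ x, φ x ^ 2) := by rw [Finset.sum_mul]
      _ ≤ _ := by
          refine mul_le_mul_of_nonneg_right ?_ (Real.exp_pos _).le
          exact Finset.single_le_sum (f := fun z => ∑ y, |B z y|)
            (fun _ _ => Finset.sum_nonneg fun _ _ => abs_nonneg _) (Finset.mem_univ z)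
  have hQ : ∀ z : (P → ℝ) × (P → ℝ), QS K z = ∑ i, u i z.1 * u i z.2 := by
    intro z
    unfold QS
    have e1 : ∀ x y, K x y * z.1 x * z.2 y = ∑ i, (B i x * z.1 x) * (B i y * z.2 y) := by
      intro x y
      rw [hM x y, Finset.sum_mul, Finset.sum_mul]
      exact Finset.sum_congr rfl fun i _ => by ring
    simp_rw [e1]
    have e2 : ∀ i, u i z.1 * u i z.2 = ∑ x, ∑ y, (B i x * z.1 x) * (B i y * z.2 y) := by
      intro i
      exact Finset.sum_mul_sum _ _ _ _
    simp_rw [e2]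
    symm
    rw [Finset.sum_comm]
    refine Finset.sum_congr rfl fun x _ => ?_
    rw [Finset.sum_comm]
  -- the powers
  have hSm : Continuous (QS K) := QS_cont K
  have hint : ∀ n : ℕ, Integrable (fun z : (P → ℝ) × (P → ℝ) =>
      A z.1 * A z.2 * QS K z ^ n) := by
    intro n
    refine dom_int K A A C c hc hA hA hAb hAb _ (hSm.pow n).measurable (n.factorial : ℝ) ?_
    intro z
    have h1 := Real.pow_div_factorial_le_exp |QS K z| (abs_nonneg (QS K z)) n
    rw [div_le_iff₀ (by positivity)] at h1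
    rw [abs_pow]
    linarith
  have key : ∀ n : ℕ, 0 ≤ ∫ z : (P → ℝ) × (P → ℝ), A z.1 * A z.2 * QS K z ^ n := by
    intro n
    have e1 : ∀ z : (P → ℝ) × (P → ℝ), A z.1 * A z.2 * QS K z ^ n =
        ∑ w : Fin n → Fin k, (A z.1 * ∏ i, u (w i) z.1) * (A z.2 * ∏ i, u (w i) z.2) := by
      intro z
      rw [hQ z, Fintype.sum_pow, Finset.mul_sum]
      refine Finset.sum_congr rfl fun w _ => ?_
      rw [Finset.prod_mul_distrib]
      ring
    simp_rw [e1]
    have hI : ∀ w : Fin n → Fin k, Integrable (fun z : (P → ℝ) × (P → ℝ) =>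
        (A z.1 * ∏ i, u (w i) z.1) * (A z.2 * ∏ i, u (w i) z.2)) := by
      intro w
      have h1 : Integrable (fun ψ : P → ℝ => A ψ * ∏ i, u (w i) ψ) := by
        have h2 := (integrable_quart (P := P) (n : ℝ) c hc).const_mul (C * D ^ n)
        refine h2.mono' ?_ (Eventually.of_forall fun ψ => ?_)
        · exact (hA.mul (continuous_finsetProd _ fun i _ => hu (w i)).measurable).aestronglyMeasurable
        · have hC : 0 ≤ C := by
            have h3 := (abs_nonneg _).trans (hAb 0)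
            exact nonneg_of_mul_nonneg_left h3 (Real.exp_pos _)
          have h3 : |∏ i, u (w i) ψ| ≤ (D * Real.exp (∑ x, ψ x ^ 2)) ^ n := by
            rw [Finset.abs_prod]
            calc ∏ i, |u (w i) ψ| ≤ ∏ _i : Fin n, (D * Real.exp (∑ x, ψ x ^ 2)) :=
                  Finset.prod_le_prod (fun i _ => abs_nonneg _) fun i _ => huD (w i) ψ
              _ = _ := by simp
          rw [Real.norm_eq_abs, abs_mul]
          calc |A ψ| * |∏ i, u (w i) ψ| ≤ (C * Real.exp (-(c * ∑ x, ψ x ^ 4))) *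
                (D * Real.exp (∑ x, ψ x ^ 2)) ^ n :=
                mul_le_mul (hAb ψ) h3 (abs_nonneg _) (by positivity)
            _ = C * D ^ n * Real.exp ((n : ℝ) * ∑ x, ψ x ^ 2 - c * ∑ x, ψ x ^ 4) := by
                rw [mul_pow, ← Real.exp_nat_mul, sub_eq_add_neg, Real.exp_add]
                ring
      exact h1.mul_prod h1
    rw [integral_finsetSum _ fun w _ => hI w]
    refine Finset.sum_nonneg fun w _ => ?_
    have h2 : ∫ z : (P → ℝ) × (P → ℝ),
        (A z.1 * ∏ i, u (w i) z.1) * (A z.2 * ∏ i, u (w i) z.2) =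
        (∫ ψ : P → ℝ, A ψ * ∏ i, u (w i) ψ) * ∫ ψ : P → ℝ, A ψ * ∏ i, u (w i) ψ :=
      integral_prod_mul (μ := (volume : Measure (P → ℝ))) (ν := (volume : Measure (P → ℝ)))
        (fun ψ => A ψ * ∏ i, u (w i) ψ) (fun ψ => A ψ * ∏ i, u (w i) ψ)
    rw [h2]
    exact mul_self_nonneg _
  have keyn : ∀ n : ℕ, 0 ≤ ∫ z : (P → ℝ) × (P → ℝ),
      A z.1 * A z.2 * ∑ j ∈ Finset.range n, QS K z ^ j / (j.factorial : ℝ) := by
    intro n
    have e1 : ∀ z : (P → ℝ) × (P → ℝ),
        A z.1 * A z.2 * ∑ j ∈ Finset.range n, QS K z ^ j / (j.factorial : ℝ) =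
        ∑ j ∈ Finset.range n, ((j.factorial : ℝ))⁻¹ * (A z.1 * A z.2 * QS K z ^ j) := by
      intro z
      rw [Finset.mul_sum]
      refine Finset.sum_congr rfl fun j _ => ?_
      rw [div_eq_mul_inv]; ring
    simp_rw [e1]
    rw [integral_finsetSum _ fun j _ => (hint j).const_mul _]
    refine Finset.sum_nonneg fun j _ => ?_
    rw [integral_const_mul]
    exact mul_nonneg (by positivity) (key j)
  have lim : Tendsto (fun n : ℕ => ∫ z : (P → ℝ) × (P → ℝ),
      A z.1 * A z.2 * ∑ j ∈ Finset.range n, QS K z ^ j / (j.factorial : ℝ)) atTop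
      (𝓝 (∫ z : (P → ℝ) × (P → ℝ), A z.1 * A z.2 * Real.exp (QS K z))) := by
    refine tendsto_integral_of_dominated_convergence
      (fun z => |A z.1 * A z.2 * Real.exp (|QS K z|)|) ?_ ?_ ?_ ?_
    · intro n
      refine Measurable.aestronglyMeasurable ?_
      refine ((hA.comp measurable_fst).mul (hA.comp measurable_snd)).mul ?_
      exact (continuous_finsetSum _ fun j _ => ((hSm.pow j).div_const _)).measurable
    · refine (dom_int K A A C c hc hA hA hAb hAb (fun z => Real.exp |QS K z|)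
        (Real.continuous_exp.comp hSm.abs).measurable 1 ?_).abs
      intro z
      rw [abs_of_pos (Real.exp_pos _), one_mul]
    · intro n
      refine ae_of_all _ fun z => ?_
      rw [Real.norm_eq_abs, abs_mul, abs_mul (A z.1 * A z.2), abs_of_pos (Real.exp_pos |QS K z|)]
      refine mul_le_mul_of_nonneg_left ?_ (abs_nonneg _)
      refine (Finset.abs_sum_le_sum_abs _ _).trans ?_
      refine le_trans (le_of_eq ?_) (Real.sum_le_exp_of_nonneg (abs_nonneg (QS K z)) n)
      refine Finset.sum_congr rfl fun j _ => ?_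
      rw [abs_div, abs_pow, Nat.abs_cast]
    · refine ae_of_all _ fun z => ?_
      refine Tendsto.const_mul _ ?_
      have := (NormedSpace.expSeries_div_hasSum_exp (QS K z)).tendsto_sum_nat
      rwa [← Real.exp_eq_exp_ℝ] at this
  exact ge_of_tendsto' lim keyn

theorem pf_QPS : T_QPS := by
  intro P _ K hK hp A B C c hc hA hB hAb hBb
  have hI : ∀ A B : (P → ℝ) → ℝ, ∀ C : ℝ, Measurable A → Measurable B →
      (∀ ψ, |A ψ| ≤ C * Real.exp (-(c * ∑ x, ψ x ^ 4))) →
      (∀ ψ, |B ψ| ≤ C * Real.exp (-(c * ∑ x, ψ x ^ 4))) →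
      Integrable (fun z : (P → ℝ) × (P → ℝ) => A z.1 * B z.2 * Real.exp (QS K z)) := by
    intro A B C hA hB hAb hBb
    refine dom_int K A B C c hc hA hB hAb hBb _ (Real.continuous_exp.comp (QS_cont K)).measurable
      1 ?_
    intro z
    rw [abs_of_pos (Real.exp_pos _), one_mul]
    exact Real.exp_le_exp.2 (le_abs_self _)
  refine ⟨hI A B C hA hB hAb hBb, pos_int K hK hp A C c hc hA hAb, ?_⟩
  have hAB := hI A B C hA hB hAb hBb
  have hBA := hI B A C hB hA hBb hAb
  have hAA := hI A A C hA hA hAb hAb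
  have hBB := hI B B C hB hB hBb hBb
  change (∫ z : (P → ℝ) × (P → ℝ), A z.1 * B z.2 * Real.exp (QS K z)) ^ 2 ≤
    (∫ z : (P → ℝ) × (P → ℝ), A z.1 * A z.2 * Real.exp (QS K z)) *
    ∫ z : (P → ℝ) × (P → ℝ), B z.1 * B z.2 * Real.exp (QS K z)
  set a := ∫ z : (P → ℝ) × (P → ℝ), A z.1 * A z.2 * Real.exp (QS K z) with ha
  set b := ∫ z : (P → ℝ) × (P → ℝ), B z.1 * B z.2 * Real.exp (QS K z) with hb
  set q := ∫ z : (P → ℝ) × (P → ℝ), A z.1 * B z.2 * Real.exp (QS K z) with hq
  have hswap : ∫ z : (P → ℝ) × (P → ℝ), B z.1 * A z.2 * Real.exp (QS K z) = q := by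
    have h0 := integral_prod_swap (μ := (volume : Measure (P → ℝ)))
      (ν := (volume : Measure (P → ℝ))) (fun z : (P → ℝ) × (P → ℝ) =>
        A z.1 * B z.2 * Real.exp (QS K z))
    have h2 : ∀ z : (P → ℝ) × (P → ℝ), B z.1 * A z.2 * Real.exp (QS K z) =
        (fun z : (P → ℝ) × (P → ℝ) => A z.1 * B z.2 * Real.exp (QS K z)) z.swap := by
      intro z
      have h1 : QS K z.swap = QS K z := by
        unfold QS
        rw [Finset.sum_comm]
        refine Finset.sum_congr rfl fun x _ => Finset.sum_congr rfl fun y _ => ?_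
        rw [hK]
        simp only [Prod.fst_swap, Prod.snd_swap]
        ring
      show B z.1 * A z.2 * Real.exp (QS K z) = A z.2 * B z.1 * Real.exp (QS K z.swap)
      rw [h1]; ring
    simp_rw [h2]
    exact h0
  have hlam : ∀ t : ℝ, 0 ≤ b * (t * t) + (2 * q) * t + a := by
    intro t
    have h1 := pos_int K hK hp (fun ψ => A ψ + t * B ψ) (C + |t| * C) c hc
      (hA.add (hB.const_mul t)) (by
        intro ψ
        refine (abs_add_le _ _).trans ?_
        rw [abs_mul]
        have := hAb ψ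
        have := mul_le_mul_of_nonneg_left (hBb ψ) (abs_nonneg t)
        nlinarith)
    refine h1.trans (le_of_eq ?_)
    have e1 : ∀ z : (P → ℝ) × (P → ℝ),
        (A z.1 + t * B z.1) * (A z.2 + t * B z.2) * Real.exp (QS K z) =
        A z.1 * A z.2 * Real.exp (QS K z) + t * (A z.1 * B z.2 * Real.exp (QS K z)) +
        t * (B z.1 * A z.2 * Real.exp (QS K z)) + (t * t) * (B z.1 * B z.2 * Real.exp (QS K z)) := by
      intro z; ring
    simp_rw [e1]
    have g1 := hAA.add (hAB.const_mul t)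
    have g2 := g1.add (hBA.const_mul t)
    have f1 : ∫ z : (P → ℝ) × (P → ℝ), (A z.1 * A z.2 * Real.exp (QS K z) +
        t * (A z.1 * B z.2 * Real.exp (QS K z)) +
        t * (B z.1 * A z.2 * Real.exp (QS K z)) + (t * t) * (B z.1 * B z.2 * Real.exp (QS K z))) =
        (∫ z : (P → ℝ) × (P → ℝ), (A z.1 * A z.2 * Real.exp (QS K z) +
        t * (A z.1 * B z.2 * Real.exp (QS K z)) +
        t * (B z.1 * A z.2 * Real.exp (QS K z)))) +
        ∫ z : (P → ℝ) × (P → ℝ), (t * t) * (B z.1 * B z.2 * Real.exp (QS K z)) :=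
      integral_add g2 (hBB.const_mul _)
    have f2 : ∫ z : (P → ℝ) × (P → ℝ), (A z.1 * A z.2 * Real.exp (QS K z) +
        t * (A z.1 * B z.2 * Real.exp (QS K z)) +
        t * (B z.1 * A z.2 * Real.exp (QS K z))) =
        (∫ z : (P → ℝ) × (P → ℝ), (A z.1 * A z.2 * Real.exp (QS K z) +
        t * (A z.1 * B z.2 * Real.exp (QS K z)))) +
        ∫ z : (P → ℝ) × (P → ℝ), t * (B z.1 * A z.2 * Real.exp (QS K z)) :=
      integral_add g1 (hBA.const_mul t)
    rw [f1, f2, integral_add hAA (hAB.const_mul t), integral_const_mul, integral_const_mul,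
      integral_const_mul, hswap, ← ha, ← hb, ← hq]
    ring
  have hd := discrim_le_zero hlam
  unfold discrim at hd
  nlinarith

end Pool.Agent.H93.UDP
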