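import Pool.Agent.H29.UDP.TLat
import Pool.Agent.H59.LD.RPA

/-!
# Row RP2 of the board `udp_modules`: reflection positivity with sites on the mirror
-/

set_option autoImplicit false

open MeasureTheory Filter Topology
open scoped ENNReal

namespace Pool.Agent.H93.UDP

open Pool.Agent.H29.UDP
open Pool.Agent.H59.LD (Gr gr_const gr_coord gr_exp)

/-- Fubini with a reflection which has fixed points. -/
theorem ref_nonneg' {ι : Type*} [Fintype ι] (σ : ι → ι) (p : ι → Prop)
    (hσ : ∀ x, σ (σ x) = x) (hp1 : ∀ x, p x → ¬ p (σ x)) (hp2 : ∀ x, p x ∨ p (σ x) ∨ σ x = x)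
    (R : (ι → ℝ) → ℝ) (hR : ∀ φ ψ : ι → ℝ, (∀ x, ¬ p (σ x) → φ x = ψ x) → R φ = R ψ) :
    0 ≤ ∫ φ : ι → ℝ, R (fun x => φ (σ x)) * R φ := by
  classical
  by_cases hint : Integrable (fun φ : ι → ℝ => R (fun x => φ (σ x)) * R φ)
  swap
  · rw [integral_undef hint]
  let e := MeasurableEquiv.piEquivPiSubtypeProd (fun _ : ι => ℝ) (fun x => σ x = x)
  have hmp : MeasurePreserving e := volume_preserving_piEquivPiSubtypeProd _ _
  have hs : MeasurePreserving e.symm := hmp.symm e
  have h3 := hs.integral_comp' (fun φ : ι → ℝ => R (fun x => φ (σ x)) * R φ)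
  have h4 := (hs.integrable_comp_emb e.symm.measurableEmbedding
    (g := fun φ : ι → ℝ => R (fun x => φ (σ x)) * R φ)).2 hint
  rw [← h3]
  have h5 := integral_prod (μ := (volume : Measure ({x // σ x = x} → ℝ)))
    (ν := (volume : Measure ({x // ¬ σ x = x} → ℝ)))
    (fun z => R (fun x => e.symm z (σ x)) * R (e.symm z)) h4
  refine le_of_le_of_eq ?_ h5.symm
  refine integral_nonneg fun v => ?_
  let σ' : {x // ¬ σ x = x} → {x // ¬ σ x = x} := fun x => ⟨σ x.1, fun h => x.2 (by
    rw [hσ] at h; exact h.symm)⟩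
  let R' : ({x // ¬ σ x = x} → ℝ) → ℝ := fun w => R (e.symm (v, w))
  have he : ∀ (w : {x // ¬ σ x = x} → ℝ) (x : ι), e.symm (v, w) x =
      if h : σ x = x then v ⟨x, h⟩ else w ⟨x, h⟩ := fun w x => rfl
  have h6 : ∀ w : {x // ¬ σ x = x} → ℝ, (fun x => e.symm (v, w) (σ x)) =
      e.symm (v, fun x => w (σ' x)) := by
    intro w
    funext x
    rw [he, he]
    by_cases h : σ x = x
    · have h' : σ (σ x) = σ x := by rw [h, h]
      rw [dif_pos h', dif_pos h]
      congr 1
      exact Subtype.ext h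
    · have h' : ¬ σ (σ x) = σ x := by rw [hσ]; exact fun h'' => h h''.symm
      rw [dif_neg h', dif_neg h]
  have h7 := Pool.Agent.H59.LD.ref_nonneg σ' (fun x => p x.1) (fun x => Subtype.ext (hσ x.1))
    (fun x => by
      constructor
      · intro h h'
        exact hp1 _ h' h
      · intro h
        rcases hp2 x.1 with h' | h' | h'
        · exact absurd h' h
        · exact h'
        · exact absurd h' x.2) R' (by
      intro φ ψ hφ
      refine hR _ _ fun x hx => ?_
      rw [he, he]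
      by_cases h : σ x = x
      · rw [dif_pos h, dif_pos h]
      · rw [dif_neg h, dif_neg h]
        refine hφ _ ?_
        rcases hp2 x with h' | h' | h'
        · exact h'
        · exact absurd h' hx
        · exact absurd h' h)
  refine h7.trans (le_of_eq ?_)
  refine integral_congr_ae (ae_of_all _ fun w => ?_)
  show R (e.symm (v, fun x => w (σ' x))) * R (e.symm (v, w)) =
    R (fun x => e.symm (v, w) (σ x)) * R (e.symm (v, w))
  rw [h6 w]

variable {ι : Type} [Fintype ι]

/-- reflection positivity, abstract form, with sites on the mirror -/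
theorem rp_core' (σ : ι ≃ ι) (hσ : ∀ x, σ (σ x) = x) (p : ι → Prop)
    (hp1 : ∀ x, p x → ¬ p (σ x)) (hp2 : ∀ x, p x ∨ p (σ x) ∨ σ x = x)
    (H h : (ι → ℝ) → ℝ) (hH : Continuous H)
    (hI : ∀ C : ℝ, Integrable (fun φ : ι → ℝ => Real.exp (C * ∑ x, φ x ^ 2 - H φ)))
    (hh : ∀ φ ψ : ι → ℝ, (∀ x, ¬ p (σ x) → φ x = ψ x) → h φ = h ψ)
    {m : ℕ} (u : Fin m → (ι → ℝ) → ℝ) (hu : ∀ z, Gr (u z))
    (hup : ∀ (z : Fin m) (φ ψ : ι → ℝ), (∀ x, ¬ p (σ x) → φ x = ψ x) → u z φ = u z ψ)
    (C : ℝ) (hS : ∀ φ : ι → ℝ, |∑ z, u z (fun x => φ (σ x)) * u z φ| ≤ C * ∑ x, φ x ^ 2)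
    (hdec : ∀ φ : ι → ℝ, -H φ = -h φ - h (fun x => φ (σ x)) +
      ∑ z, u z (fun x => φ (σ x)) * u z φ)
    (G : (ι → ℝ) → ℝ) (hG : Gr G)
    (hGp : ∀ φ ψ : ι → ℝ, (∀ x, ¬ p (σ x) → φ x = ψ x) → G φ = G ψ) :
    0 ≤ ∫ φ : ι → ℝ, G (fun x => φ (σ x)) * G φ * Real.exp (-H φ) := by
  classical
  set S : (ι → ℝ) → ℝ := fun φ => ∑ z, u z (fun x => φ (σ x)) * u z φ with hSdef
  have hSc : Continuous S := by
    refine continuous_finsetSum _ fun z _ => ?_
    exact ((hu z).comp σ).1.mul (hu z).1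
  have hnS : Gr (fun φ => Real.exp (-S φ)) :=
    gr_exp hSc.neg (C := C) fun φ => (neg_le_abs _).trans (hS φ)
  set W : (ι → ℝ) → ℝ := fun φ => G (fun x => φ (σ x)) * G φ * Real.exp (-S φ) with hWdef
  have hW : Gr W := ((hG.comp σ).mul hG).mul hnS
  have hE : ∀ φ : ι → ℝ, Real.exp (-S φ) * Real.exp (-H φ) =
      Real.exp (-h φ) * Real.exp (-h (fun x => φ (σ x))) := by
    intro φ
    rw [← Real.exp_add, ← Real.exp_add, hdec φ]
    congr 1
    simp only [hSdef]
    ring
  have key : ∀ k : ℕ, 0 ≤ ∫ φ : ι → ℝ, S φ ^ k * (W φ * Real.exp (-H φ)) := by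
    intro k
    have e1 : ∀ φ : ι → ℝ, S φ ^ k * (W φ * Real.exp (-H φ)) =
        ∑ z : Fin k → Fin m, ((∏ i, (u (z i) (fun x => φ (σ x)) * u (z i) φ)) * W φ) *
          Real.exp (-H φ) := by
      intro φ
      change (∑ z, u z (fun x => φ (σ x)) * u z φ) ^ k * (W φ * Real.exp (-H φ)) = _
      rw [Fintype.sum_pow, ← Finset.sum_mul, ← Finset.sum_mul]
      ring
    simp_rw [e1]
    rw [integral_finsetSum]
    · refine Finset.sum_nonneg fun z _ => ?_
      have e2 : ∀ φ : ι → ℝ, ((∏ i, (u (z i) (fun x => φ (σ x)) * u (z i) φ)) * W φ) *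
          Real.exp (-H φ) =
          (fun ψ : ι → ℝ => G ψ * Real.exp (-h ψ) * ∏ i, u (z i) ψ) (fun x => φ (σ x)) *
          (fun ψ : ι → ℝ => G ψ * Real.exp (-h ψ) * ∏ i, u (z i) ψ) φ := by
        intro φ
        simp only [hWdef]
        rw [mul_assoc, mul_assoc (G _ * G _), hE φ, Finset.prod_mul_distrib]
        ring
      simp_rw [e2]
      refine ref_nonneg' σ p hσ hp1 hp2
        (fun ψ : ι → ℝ => G ψ * Real.exp (-h ψ) * ∏ i, u (z i) ψ) ?_
      intro φ ψ hφψ
      rw [hGp φ ψ hφψ, hh φ ψ hφψ]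
      congr 1
      exact Finset.prod_congr rfl fun i _ => hup (z i) φ ψ hφψ
    · intro z _
      refine Gr.integrable ((Gr.prod _ fun i _ => ?_).mul hW) hH hI
      exact ((hu (z i)).comp σ).mul (hu (z i))
  have hint : ∀ k : ℕ, Integrable (fun φ : ι → ℝ => S φ ^ k * (W φ * Real.exp (-H φ))) := by
    intro k
    have hSg : Gr S := by
      refine Gr.sum _ fun z _ => ?_
      exact ((hu z).comp σ).mul (hu z)
    have h1 : Gr (fun φ => S φ ^ k * W φ) := by
      have h2 : Gr (fun φ => ∏ _i : Fin k, S φ) := Gr.prod _ fun _ _ => hSg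
      simp only [Finset.prod_const, Finset.card_univ, Fintype.card_fin] at h2
      exact h2.mul hW
    have h3 := h1.integrable hH hI
    simpa only [mul_assoc] using h3
  have keyn : ∀ n : ℕ, 0 ≤ ∫ φ : ι → ℝ, (∑ k ∈ Finset.range n, S φ ^ k / (k.factorial : ℝ)) *
      (W φ * Real.exp (-H φ)) := by
    intro n
    have e1 : ∀ φ : ι → ℝ, (∑ k ∈ Finset.range n, S φ ^ k / (k.factorial : ℝ)) *
        (W φ * Real.exp (-H φ)) = ∑ k ∈ Finset.range n, ((k.factorial : ℝ))⁻¹ *
          (S φ ^ k * (W φ * Real.exp (-H φ))) := by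
      intro φ
      rw [Finset.sum_mul]
      refine Finset.sum_congr rfl fun k _ => ?_
      rw [div_eq_mul_inv]; ring
    simp_rw [e1]
    rw [integral_finsetSum _ fun k _ => (hint k).const_mul _]
    refine Finset.sum_nonneg fun k _ => ?_
    rw [integral_const_mul]
    exact mul_nonneg (by positivity) (key k)
  have lim : Tendsto (fun n : ℕ => ∫ φ : ι → ℝ,
      (∑ k ∈ Finset.range n, S φ ^ k / (k.factorial : ℝ)) * (W φ * Real.exp (-H φ))) atTop
      (𝓝 (∫ φ : ι → ℝ, Real.exp (S φ) * (W φ * Real.exp (-H φ)))) := by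
    refine tendsto_integral_of_dominated_convergence
      (fun φ => Real.exp (|S φ|) * |W φ| * Real.exp (-H φ)) ?_ ?_ ?_ ?_
    · intro n
      refine Continuous.aestronglyMeasurable ?_
      refine (continuous_finsetSum _ fun k _ => ((hSc.pow k).div_const _)).mul
        (hW.1.mul (Real.continuous_exp.comp hH.neg))
    · exact ((gr_exp hSc.abs (C := C) hS).mul hW.abs).integrable hH hI
    · intro n
      refine ae_of_all _ fun φ => ?_
      rw [Real.norm_eq_abs, abs_mul, abs_mul, abs_of_pos (Real.exp_pos (-H φ)), mul_assoc]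
      refine mul_le_mul_of_nonneg_right ?_ (by positivity)
      refine (Finset.abs_sum_le_sum_abs _ _).trans ?_
      refine le_trans (le_of_eq ?_) (Real.sum_le_exp_of_nonneg (abs_nonneg (S φ)) n)
      refine Finset.sum_congr rfl fun k _ => ?_
      rw [abs_div, abs_pow, Nat.abs_cast]
    · refine ae_of_all _ fun φ => ?_
      refine Tendsto.mul_const _ ?_
      have := (NormedSpace.expSeries_div_hasSum_exp (S φ)).tendsto_sum_nat
      rwa [← Real.exp_eq_exp_ℝ] at this
  have hfin : ∀ φ : ι → ℝ, Real.exp (S φ) * (W φ * Real.exp (-H φ)) =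
      G (fun x => φ (σ x)) * G φ * Real.exp (-H φ) := by
    intro φ
    simp only [hWdef]
    have : Real.exp (S φ) * Real.exp (-S φ) = 1 := by rw [← Real.exp_add]; simp
    calc Real.exp (S φ) * (G (fun x => φ (σ x)) * G φ * Real.exp (-S φ) * Real.exp (-H φ))
        = (Real.exp (S φ) * Real.exp (-S φ)) *
          (G (fun x => φ (σ x)) * G φ * Real.exp (-H φ)) := by ring
      _ = _ := by rw [this, one_mul]
  simp_rw [hfin] at lim
  exact ge_of_tendsto' lim keyn

/-- splitting a sum into the right half, its reflection and the mirror -/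
theorem sum_split3 (σ : ι ≃ ι) (r m : ι → ℝ) (hr : ∀ x, r (σ x) = 1 - r x - m x)
    (hσ : ∀ x, σ (σ x) = x) (f : ι → ℝ) :
    ∑ x, f x = ∑ x, r x * f x + ∑ x, r x * f (σ x) + ∑ x, m x * f x := by
  have h1 : ∑ x, r x * f (σ x) = ∑ x, r (σ x) * f x := by
    rw [← Equiv.sum_comp σ (fun x => r (σ x) * f x)]
    simp [hσ]
  rw [h1, ← Finset.sum_add_distrib, ← Finset.sum_add_distrib]
  refine Finset.sum_congr rfl fun x _ => ?_
  rw [hr]; ring

theorem pf_RP2 (hGLW : T_GLW) : T_RP2 := by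
  classical
  intro ι _ J g b σ₀ P hg hσ₀ hgσ hbσ hJσ hJs hP1 hP2 hrp n c F hF
  obtain ⟨hI, hZ, hprob, hint, -⟩ := hGLW ι J g b hg
  let σ : ι ≃ ι := ⟨σ₀, σ₀, hσ₀, hσ₀⟩
  have hσ : ∀ x, σ (σ x) = x := hσ₀
  have hp1 : ∀ x, P x → ¬ P (σ x) := hP1
  have hp2 : ∀ x, P x ∨ P (σ x) ∨ σ x = x := hP2
  let r : ι → ℝ := fun x => if P x then 1 else 0
  let m : ι → ℝ := fun x => if σ x = x then 1 else 0
  have hr : ∀ x, r (σ x) = 1 - r x - m x := by
    intro x
    by_cases h : σ x = x
    · have h1 : ¬ P x := fun h' => hp1 x h' (by rw [h]; exact h')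
      have h2 : ¬ P (σ x) := by rw [h]; exact h1
      simp [r, m, h, h1]
    · by_cases h' : P x
      · have h1 := hp1 x h'
        simp [r, m, h, h', h1]
      · have h1 : P (σ x) := by
          rcases hp2 x with h1 | h1 | h1
          · exact absurd h1 h'
          · exact h1
          · exact absurd h1 h
        simp [r, m, h, h', h1]
  have hrp' : ∀ x, r x ≠ 0 → P x := by
    intro x hx
    by_contra h
    exact hx (by simp [r, h])
  have hmp' : ∀ x, m x ≠ 0 → σ x = x := by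
    intro x hx
    by_contra h
    exact hx (by simp [m, h])
  have hrq : ∀ x, r x ≠ 0 → ¬ P (σ x) := fun x hx => hp1 x (hrp' x hx)
  have hmq : ∀ x, m x ≠ 0 → ¬ P (σ x) := by
    intro x hx h
    have h1 := hmp' x hx
    exact hp1 (σ x) h (by rw [hσ]; rw [h1] at h; exact h)
  -- the matrix
  let M : Matrix ι ι ℝ := fun x y => r x * r y * J (σ x) y
  have hMps : M.PosSemidef := by
    rw [Matrix.posSemidef_iff_dotProduct_mulVec]
    constructor
    · ext x y
      show star (r y * r x * J (σ y) x) = r x * r y * J (σ x) y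
      have h1 : J (σ y) x = J (σ x) y := by
        have h2 := hJσ (σ y) x
        rw [← h2]
        show J (σ (σ y)) (σ x) = J (σ x) y
        rw [hσ, hJs]
      rw [star_trivial, h1]; ring
    · intro v
      have h1 := hrp (fun x => r x * v x) (by
        intro x hx
        simp [r, hx])
      refine h1.trans (le_of_eq ?_)
      simp only [dotProduct, Matrix.mulVec, Pi.star_apply, star_trivial, Finset.mul_sum]
      refine Finset.sum_congr rfl fun x _ => Finset.sum_congr rfl fun y _ => ?_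
      show r x * v x * (r y * v y) * J (σ x) y = v x * (r x * r y * J (σ x) y * v y)
      ring
  obtain ⟨k, B, hB⟩ := Matrix.posSemidef_iff_eq_sum_vecMulVec.1 hMps
  have hM : ∀ x y, r x * r y * J (σ x) y = ∑ z, B z x * B z y := by
    intro x y
    have h1 : M x y = (∑ z, Matrix.vecMulVec (B z) (star (B z))) x y := by rw [← hB]
    rw [Matrix.sum_apply] at h1
    exact h1
  let u : Fin k → (ι → ℝ) → ℝ := fun z φ => ∑ y, r y * B z y * φ y
  have hrr : ∀ x, r x * r x = r x := by
    intro x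
    by_cases h : P x <;> simp [r, h]
  have hSS : ∀ φ : ι → ℝ, ∑ z, u z (fun x => φ (σ x)) * u z φ =
      ∑ x, ∑ y, r x * r y * J (σ x) y * φ (σ x) * φ y := by
    intro φ
    have e1 : ∀ x y, r x * r y * J (σ x) y * φ (σ x) * φ y =
        ∑ z, (r x * B z x * φ (σ x)) * (r y * B z y * φ y) := by
      intro x y
      have h1 : r x * r y * J (σ x) y = (r x * r y) * (r x * r y * J (σ x) y) := by
        calc r x * r y * J (σ x) y = (r x * r x) * (r y * r y) * J (σ x) y := by
              rw [hrr, hrr]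
          _ = _ := by ring
      rw [h1, hM x y, Finset.mul_sum, Finset.sum_mul, Finset.sum_mul]
      refine Finset.sum_congr rfl fun z _ => ?_
      ring
    simp_rw [e1]
    have e2 : ∀ z, u z (fun x => φ (σ x)) * u z φ =
        ∑ x, ∑ y, (r x * B z x * φ (σ x)) * (r y * B z y * φ y) := by
      intro z
      exact Finset.sum_mul_sum _ _ _ _
    simp_rw [e2]
    rw [Finset.sum_comm]
    refine Finset.sum_congr rfl fun x _ => ?_
    rw [Finset.sum_comm]
  let h : (ι → ℝ) → ℝ := fun φ => ∑ x, r x * (g x * φ x ^ 4 + b x * φ x ^ 2) -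
    1 / 2 * ∑ x, ∑ y, r x * r y * (J x y * φ x * φ y) -
    ∑ x, ∑ y, r x * m y * (J x y * φ x * φ y) +
    1 / 2 * (∑ x, m x * (g x * φ x ^ 4 + b x * φ x ^ 2) -
      1 / 2 * ∑ x, ∑ y, m x * m y * (J x y * φ x * φ y))
  have hmσ : ∀ (x : ι) (f : ι → ℝ), m x * f (σ x) = m x * f x := by
    intro x f
    by_cases hx : m x = 0
    · rw [hx, zero_mul, zero_mul]
    · rw [hmp' x hx]
  have hdec : ∀ φ : ι → ℝ, -gH J g b φ = -h φ - h (fun x => φ (σ x)) +
      ∑ z, u z (fun x => φ (σ x)) * u z φ := by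
    intro φ
    rw [hSS φ]
    have e1 := sum_split3 σ r m hr hσ (fun x => g x * φ x ^ 4 + b x * φ x ^ 2)
    have e1' : ∑ x, r x * (g (σ x) * φ (σ x) ^ 4 + b (σ x) * φ (σ x) ^ 2) =
        ∑ x, r x * (g x * φ (σ x) ^ 4 + b x * φ (σ x) ^ 2) := by
      refine Finset.sum_congr rfl fun x _ => ?_
      have h1 : g (σ x) = g x := hgσ x
      have h2 : b (σ x) = b x := hbσ x
      rw [h1, h2]
    have e3 : ∑ x, m x * (g x * φ (σ x) ^ 4 + b x * φ (σ x) ^ 2) =
        ∑ x, m x * (g x * φ x ^ 4 + b x * φ x ^ 2) :=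
      Finset.sum_congr rfl fun x _ => hmσ x fun y => g x * φ y ^ 4 + b x * φ y ^ 2
    have e4 : ∑ x, ∑ y, m x * m y * (J x y * φ (σ x) * φ (σ y)) =
        ∑ x, ∑ y, m x * m y * (J x y * φ x * φ y) := by
      refine Finset.sum_congr rfl fun x _ => Finset.sum_congr rfl fun y _ => ?_
      have h1 := hmσ x φ
      have h2 := hmσ y φ
      calc m x * m y * (J x y * φ (σ x) * φ (σ y)) =
            J x y * (m x * φ (σ x)) * (m y * φ (σ y)) := by ring
        _ = m x * m y * (J x y * φ x * φ y) := by rw [h1, h2]; ring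
    -- the quadratic form
    have e2 : ∑ x, ∑ y, J x y * φ x * φ y =
        ∑ x, ∑ y, r x * r y * (J x y * φ x * φ y) +
        ∑ x, ∑ y, r x * r y * (J x y * φ (σ x) * φ (σ y)) +
        2 * (∑ x, ∑ y, r x * r y * J (σ x) y * φ (σ x) * φ y) +
        2 * (∑ x, ∑ y, r x * m y * (J x y * φ x * φ y)) +
        2 * (∑ x, ∑ y, r x * m y * (J x y * φ (σ x) * φ (σ y))) +
        ∑ x, ∑ y, m x * m y * (J x y * φ x * φ y) := by
      have f1 := sum_split3 σ r m hr hσ (fun x => ∑ y, J x y * φ x * φ y)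
      rw [f1]
      have f2 : ∀ x, r x * ∑ y, J x y * φ x * φ y =
          ∑ y, r x * r y * (J x y * φ x * φ y) +
          ∑ y, r x * r y * (J x (σ y) * φ x * φ (σ y)) +
          ∑ y, r x * m y * (J x y * φ x * φ y) := by
        intro x
        rw [sum_split3 σ r m hr hσ (fun y => J x y * φ x * φ y), mul_add, mul_add,
          Finset.mul_sum, Finset.mul_sum, Finset.mul_sum]
        congr 1
        · congr 1 <;> exact Finset.sum_congr rfl fun y _ => by ring
        · exact Finset.sum_congr rfl fun y _ => by ring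
      have f3 : ∀ x, r x * ∑ y, J (σ x) y * φ (σ x) * φ y =
          ∑ y, r x * r y * J (σ x) y * φ (σ x) * φ y +
          ∑ y, r x * r y * (J x y * φ (σ x) * φ (σ y)) +
          ∑ y, r x * m y * (J x y * φ (σ x) * φ (σ y)) := by
        intro x
        rw [sum_split3 σ r m hr hσ (fun y => J (σ x) y * φ (σ x) * φ y), mul_add, mul_add,
          Finset.mul_sum, Finset.mul_sum, Finset.mul_sum]
        congr 1
        · congr 1
          · exact Finset.sum_congr rfl fun y _ => by ring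
          · refine Finset.sum_congr rfl fun y _ => ?_
            have h1 : J (σ x) (σ y) = J x y := hJσ x y
            rw [h1]; ring
        · refine Finset.sum_congr rfl fun y _ => ?_
          have h1 := hmσ y (fun z => J (σ x) z * φ z)
          have h2 : J (σ x) (σ y) = J x y := hJσ x y
          simp only [h2] at h1
          calc r x * (m y * (J (σ x) y * φ (σ x) * φ y)) =
                r x * φ (σ x) * (m y * (J (σ x) y * φ y)) := by ring
            _ = r x * φ (σ x) * (m y * (J x y * φ (σ y))) := by rw [h1]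
            _ = _ := by ring
      have f5 : ∀ x, m x * ∑ y, J x y * φ x * φ y =
          ∑ y, m x * r y * (J x y * φ x * φ y) +
          ∑ y, m x * r y * (J x y * φ (σ x) * φ (σ y)) +
          ∑ y, m x * m y * (J x y * φ x * φ y) := by
        intro x
        rw [sum_split3 σ r m hr hσ (fun y => J x y * φ x * φ y), mul_add, mul_add,
          Finset.mul_sum, Finset.mul_sum, Finset.mul_sum]
        congr 1
        · congr 1
          · exact Finset.sum_congr rfl fun y _ => by ring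
          · refine Finset.sum_congr rfl fun y _ => ?_
            have h1 := hmσ x (fun z => J z (σ y) * φ z)
            have h2 : J (σ x) (σ y) = J x y := hJσ x y
            simp only [h2] at h1
            calc m x * (r y * (J x (σ y) * φ x * φ (σ y))) =
                  r y * φ (σ y) * (m x * (J x (σ y) * φ x)) := by ring
              _ = r y * φ (σ y) * (m x * (J x y * φ (σ x))) := by rw [← h1]
              _ = _ := by ring
        · exact Finset.sum_congr rfl fun y _ => by ring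
      have f4 : ∑ x, ∑ y, r x * r y * (J x (σ y) * φ x * φ (σ y)) =
          ∑ x, ∑ y, r x * r y * J (σ x) y * φ (σ x) * φ y := by
        rw [Finset.sum_comm]
        refine Finset.sum_congr rfl fun x _ => Finset.sum_congr rfl fun y _ => ?_
        rw [hJs y (σ x)]; ring
      have f6 : ∑ x, ∑ y, m x * r y * (J x y * φ x * φ y) =
          ∑ x, ∑ y, r x * m y * (J x y * φ x * φ y) := by
        rw [Finset.sum_comm]
        refine Finset.sum_congr rfl fun x _ => Finset.sum_congr rfl fun y _ => ?_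
        rw [hJs y x]; ring
      have f7 : ∑ x, ∑ y, m x * r y * (J x y * φ (σ x) * φ (σ y)) =
          ∑ x, ∑ y, r x * m y * (J x y * φ (σ x) * φ (σ y)) := by
        rw [Finset.sum_comm]
        refine Finset.sum_congr rfl fun x _ => Finset.sum_congr rfl fun y _ => ?_
        rw [hJs y x]; ring
      simp_rw [f2, f3, f5, Finset.sum_add_distrib]
      rw [f4, f6, f7]
      ring
    have e5 : gH J g b φ = ∑ x, (g x * φ x ^ 4 + b x * φ x ^ 2) -
        1 / 2 * ∑ x, ∑ y, J x y * φ x * φ y := rfl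
    rw [e5, e1, e1', e2]
    show _ = -(∑ x, r x * (g x * φ x ^ 4 + b x * φ x ^ 2) -
      1 / 2 * ∑ x, ∑ y, r x * r y * (J x y * φ x * φ y) -
      ∑ x, ∑ y, r x * m y * (J x y * φ x * φ y) +
      1 / 2 * (∑ x, m x * (g x * φ x ^ 4 + b x * φ x ^ 2) -
        1 / 2 * ∑ x, ∑ y, m x * m y * (J x y * φ x * φ y))) -
      (∑ x, r x * (g x * φ (σ x) ^ 4 + b x * φ (σ x) ^ 2) -
      1 / 2 * ∑ x, ∑ y, r x * r y * (J x y * φ (σ x) * φ (σ y)) -
      ∑ x, ∑ y, r x * m y * (J x y * φ (σ x) * φ (σ y)) +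
      1 / 2 * (∑ x, m x * (g x * φ (σ x) ^ 4 + b x * φ (σ x) ^ 2) -
        1 / 2 * ∑ x, ∑ y, m x * m y * (J x y * φ (σ x) * φ (σ y)))) + _
    rw [e3, e4]
    ring
  -- bound of the coupling
  have hS : ∀ φ : ι → ℝ, |∑ z, u z (fun x => φ (σ x)) * u z φ| ≤
      (∑ x, ∑ y, |r x * r y * J (σ x) y|) * ∑ x, φ x ^ 2 := by
    intro φ
    rw [hSS φ, Finset.sum_mul]
    refine (Finset.abs_sum_le_sum_abs _ _).trans (Finset.sum_le_sum fun x _ => ?_)
    rw [Finset.sum_mul]
    refine (Finset.abs_sum_le_sum_abs _ _).trans (Finset.sum_le_sum fun y _ => ?_)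
    have h1 : ∀ x, φ x ^ 2 ≤ ∑ x, φ x ^ 2 := fun x =>
      Finset.single_le_sum (f := fun x => φ x ^ 2) (fun _ _ => sq_nonneg _) (Finset.mem_univ x)
    have h2 : |φ (σ x) * φ y| ≤ ∑ x, φ x ^ 2 := by
      rw [abs_le]
      constructor <;>
        nlinarith [h1 (σ x), h1 y, sq_nonneg (φ (σ x) - φ y), sq_nonneg (φ (σ x) + φ y)]
    rw [mul_assoc, abs_mul]
    exact mul_le_mul_of_nonneg_left h2 (abs_nonneg _)
  have hH : Continuous (gH J g b) := by
    unfold gH
    fun_prop
  have hh : ∀ φ ψ : ι → ℝ, (∀ x, ¬ P (σ x) → φ x = ψ x) → h φ = h ψ := by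
    intro φ ψ hφ
    have g1 : ∀ x, r x ≠ 0 → φ x = ψ x := fun x hx => hφ x (hrq x hx)
    have g2 : ∀ x, m x ≠ 0 → φ x = ψ x := fun x hx => hφ x (hmq x hx)
    have h1 : ∀ s : ι → ℝ, (∀ x, s x ≠ 0 → φ x = ψ x) → ∀ x,
        s x * (g x * φ x ^ 4 + b x * φ x ^ 2) = s x * (g x * ψ x ^ 4 + b x * ψ x ^ 2) := by
      intro s hs x
      by_cases hx : s x = 0
      · rw [hx, zero_mul, zero_mul]
      · rw [hs x hx]
    have h2 : ∀ s t : ι → ℝ, (∀ x, s x ≠ 0 → φ x = ψ x) → (∀ x, t x ≠ 0 → φ x = ψ x) →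
        ∀ x y, s x * t y * (J x y * φ x * φ y) = s x * t y * (J x y * ψ x * ψ y) := by
      intro s t hs ht x y
      by_cases hx : s x = 0
      · rw [hx, zero_mul, zero_mul, zero_mul]
      by_cases hy : t y = 0
      · rw [hy, mul_zero, zero_mul, zero_mul]
      rw [hs x hx, ht y hy]
    show ∑ x, r x * (g x * φ x ^ 4 + b x * φ x ^ 2) -
      1 / 2 * ∑ x, ∑ y, r x * r y * (J x y * φ x * φ y) -
      ∑ x, ∑ y, r x * m y * (J x y * φ x * φ y) +
      1 / 2 * (∑ x, m x * (g x * φ x ^ 4 + b x * φ x ^ 2) -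
        1 / 2 * ∑ x, ∑ y, m x * m y * (J x y * φ x * φ y)) =
      ∑ x, r x * (g x * ψ x ^ 4 + b x * ψ x ^ 2) -
      1 / 2 * ∑ x, ∑ y, r x * r y * (J x y * ψ x * ψ y) -
      ∑ x, ∑ y, r x * m y * (J x y * ψ x * ψ y) +
      1 / 2 * (∑ x, m x * (g x * ψ x ^ 4 + b x * ψ x ^ 2) -
        1 / 2 * ∑ x, ∑ y, m x * m y * (J x y * ψ x * ψ y))
    simp_rw [h1 r g1, h1 m g2, h2 r r g1 g1, h2 r m g1 g2, h2 m m g2 g2]
  have hu : ∀ z, Gr (u z) := by
    intro z
    refine Gr.sum _ fun y _ => ?_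
    exact (gr_const _).mul (gr_coord y)
  have hup : ∀ (z : Fin k) (φ ψ : ι → ℝ), (∀ x, ¬ P (σ x) → φ x = ψ x) → u z φ = u z ψ := by
    intro z φ ψ hφ
    refine Finset.sum_congr rfl fun y _ => ?_
    by_cases hy : r y = 0
    · rw [hy, zero_mul, zero_mul, zero_mul]
    · rw [hφ y (hrq y hy)]
  -- the observables
  let gj : Fin n → (ι → ℝ) → ℝ := fun j φ => ((F j).map (fun a => ∑ x, a x * φ x)).prod
  have hfld : ∀ a : ι → ℝ, Gr (fun φ : ι → ℝ => ∑ x, a x * φ x) := by
    intro a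
    refine Gr.sum _ fun x _ => ?_
    exact (gr_const _).mul (gr_coord x)
  have hlist : ∀ l : List (ι → ℝ), Gr (fun φ : ι → ℝ =>
      (l.map (fun a => ∑ x, a x * φ x)).prod) := by
    intro l
    induction l with
    | nil => simpa using gr_const (ι := ι) 1
    | cons a l ih =>
      have h1 := (hfld a).mul ih
      simpa using h1
  have hgj : ∀ j, Gr (gj j) := fun j => hlist (F j)
  have hgp : ∀ (j : Fin n) (φ ψ : ι → ℝ), (∀ x, ¬ P (σ x) → φ x = ψ x) → gj j φ = gj j ψ := by
    intro j φ ψ hφ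
    show ((F j).map (fun a => ∑ x, a x * φ x)).prod = ((F j).map (fun a => ∑ x, a x * ψ x)).prod
    congr 1
    refine List.map_congr_left fun a ha => ?_
    refine Finset.sum_congr rfl fun x _ => ?_
    by_cases hx : P x
    · rw [hφ x (hp1 x hx)]
    · rw [hF j a ha x hx, zero_mul, zero_mul]
  let G : (ι → ℝ) → ℝ := fun φ => ∑ j, c j * gj j φ
  have hG : Gr G := Gr.sum _ fun j _ => (gr_const _).mul (hgj j)
  have hGp : ∀ φ ψ : ι → ℝ, (∀ x, ¬ P (σ x) → φ x = ψ x) → G φ = G ψ := by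
    intro φ ψ hφ
    exact Finset.sum_congr rfl fun j _ => by rw [hgp j φ ψ hφ]
  have hmain := rp_core' σ hσ P hp1 hp2 (gH J g b) h hH hI hh u hu hup _ hS hdec G hG hGp
  have hmf : ∀ j l, ∫ φ : ι → ℝ, ((F j).map (fun a => ∑ x, a x * φ (σ₀ x))).prod *
      ((F l).map (fun a => ∑ x, a x * φ x)).prod ∂(glaw J g b) =
      (∫ φ, gj j (fun x => φ (σ x)) * gj l φ * Real.exp (-gH J g b φ)) /
        ∫ φ, Real.exp (-gH J g b φ) := by
    intro j l
    rw [hint]
    rfl
  have hsum : ∑ j, ∑ l, c j * c l * ∫ φ : ι → ℝ,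
      ((F j).map (fun a => ∑ x, a x * φ (σ₀ x))).prod *
      ((F l).map (fun a => ∑ x, a x * φ x)).prod ∂(glaw J g b) =
      (∫ φ, G (fun x => φ (σ x)) * G φ * Real.exp (-gH J g b φ)) /
        ∫ φ, Real.exp (-gH J g b φ) := by
    simp_rw [hmf]
    have e1 : ∀ φ : ι → ℝ, G (fun x => φ (σ x)) * G φ * Real.exp (-gH J g b φ) =
        ∑ j, ∑ l, (c j * c l) *
          (gj j (fun x => φ (σ x)) * gj l φ * Real.exp (-gH J g b φ)) := by
      intro φ
      show (∑ j, c j * gj j (fun x => φ (σ x))) * (∑ j, c j * gj j φ) *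
        Real.exp (-gH J g b φ) = _
      rw [Finset.sum_mul_sum, Finset.sum_mul]
      refine Finset.sum_congr rfl fun j _ => ?_
      rw [Finset.sum_mul]
      refine Finset.sum_congr rfl fun l _ => ?_
      ring
    have hi : ∀ j l, Integrable (fun φ : ι → ℝ =>
        gj j (fun x => φ (σ x)) * gj l φ * Real.exp (-gH J g b φ)) := by
      intro j l
      exact (((hgj j).comp σ).mul (hgj l)).integrable hH hI
    simp_rw [e1]
    rw [integral_finsetSum _ fun j _ => integrable_finsetSum _ fun l _ => (hi j l).const_mul _]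
    rw [Finset.sum_div]
    refine Finset.sum_congr rfl fun j _ => ?_
    rw [integral_finsetSum _ fun l _ => (hi j l).const_mul _, Finset.sum_div]
    refine Finset.sum_congr rfl fun l _ => ?_
    rw [integral_const_mul]
    ring
  rw [hsum]
  exact div_nonneg hmain hZ.le

end Pool.Agent.H93.UDP
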